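import Pool.Agent.H70.MapE.Defs
import Pool.Agent.H70.MapE.Bridge

open Pool.Agent.H70.MapE

namespace Pool.Agent.Results.MP_c3425d_gt.TorusLift

theorem result : ∃ (X X' : Type) (_ : TopologicalSpace X) (_ : TopologicalSpace X')
    (A : Set (OpenPartialHomeomorph X ℂ)) (A' : Set (OpenPartialHomeomorph X' ℂ)),
    Surface A ∧ Surface A' ∧ InfType X ∧ InfType X' ∧ ∃ F, Hom A A' F ∧
      ∃ g, OP A g ∧ Comp A g ∧ ∀ n : ℤ, n ≠ 0 → ¬ Comp A' (F (g ^ n)) :=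
  main

end Pool.Agent.Results.MP_c3425d_gt.TorusLift
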